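import Pool.Agent.P.MP_6277db_ag.KEW.NV.Tate
import Pool.Agent.P.MP_6277db_ag.KEW.Sites

/-!
Existence of a motivic cohomology spectrum extended from the smooth site.
-/

set_option backward.isDefEq.respectTransparency false

noncomputable section

open CategoryTheory Limits AlgebraicGeometry Opposite MonoidalCategory ZeroObject

namespace Pool.Agent.KEW

section general

variable {C : Type 1} [Category.{0} C] {L : Type 1} [CommRing L]

lemma NV_acyclic_cone (X : Ch C L) : (CochainComplex.mappingCone (𝟙 X)).Acyclic :=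
  (acyclic_cone_iff _).2 inferInstance

/-- Every complex is a quotient of an acyclic complex. -/
lemma NV_exists_epi (Q : Ch C L) : ∃ (P : Ch C L) (π : P ⟶ Q), P.Acyclic ∧ Epi π := by
  have := (cone_shortExact (𝟙 (Q⟦(-1 : ℤ)⟧))).epi_g
  exact ⟨_, (CochainComplex.mappingCone.triangleRotateShortComplex (𝟙 (Q⟦(-1 : ℤ)⟧))).g ≫
    (shiftFunctorCompIsoId (Ch C L) (-1 : ℤ) 1 (by simp)).hom.app Q, NV_acyclic_cone _,
    epi_comp _ _⟩

/-- Restriction of a complex which is acyclic on the image of a functor. -/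
lemma NV_acyclic_rs {C' : Type 1} [Category.{0} C'] (γ : C' ⥤ C) {X : Ch C L}
    (h : ∀ (U : C') (q : ℤ) (a : (X.homology q).obj (op (γ.obj U))), a = 0) :
    ((mapC (rs L γ)).obj X).Acyclic := by
  refine (acyclic_iff_sections _).2 fun q U a => ?_
  have e := TW_homologyMapIso (rs L γ) X q
  exact (iso_app_eq_zero_iff e a).1 (h U q _)

/-- Cellular approximation: every map factors as a map whose cone is built from representables of
objects in `S` followed by a map which is a quasi-isomorphism on objects in `S`. -/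
theorem exists_rep_factor (S : C → Prop) {X H : Ch C L} (f : X ⟶ H) :
    ∃ (Z : Ch C L) (i : X ⟶ Z) (p : Z ⟶ H), i ≫ p = f ∧ WG (RepGen L S) i ∧
      ∀ (C' : Type 1) [Category.{0} C'] (γ : C' ⥤ C), (∀ U, S (γ.obj U)) →
        QuasiIso ((mapC (rs L γ)).map p) := by
  let M := CochainComplex.mappingCone (𝟙 X)
  let i₀ : X ⟶ M ⊞ H := biprod.lift (CochainComplex.mappingCone.inr (𝟙 X)) f
  have : Mono i₀ := by
    have := mono_inr (𝟙 X)
    exact mono_of_mono_fac (biprod.lift_fst (CochainComplex.mappingCone.inr (𝟙 X)) f)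
  obtain ⟨Q, j, -, hj, hQ⟩ := exists_rep_replacement S (cokernel i₀)
  obtain ⟨P, π, hP, hπ⟩ := NV_exists_epi Q
  let g : (M ⊞ H) ⊞ P ⟶ Q := biprod.desc (cokernel.π i₀ ≫ j) π
  have : Epi g := epi_of_epi_fac (biprod.inr_desc (cokernel.π i₀ ≫ j) π)
  let S₁ := ShortComplex.mk i₀ (cokernel.π i₀) (by simp)
  let S₂ := ShortComplex.mk (kernel.ι g) g (by simp)
  have h₁ : S₁.ShortExact := { exact := ShortComplex.exact_cokernel i₀ }
  have h₂ : S₂.ShortExact := { exact := ShortComplex.exact_kernel g }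
  let i : X ⟶ kernel g := kernel.lift g (i₀ ≫ biprod.inl) (by simp [g])
  let φ : S₁ ⟶ S₂ :=
    { τ₁ := i
      τ₂ := biprod.inl
      τ₃ := j
      comm₁₂ := by simp [S₁, S₂, i]
      comm₂₃ := by simp [S₁, S₂, g] }
  refine ⟨kernel g, i, kernel.ι g ≫ biprod.fst ≫ biprod.snd, by simp [i, i₀],
    wg_τ₁ h₁ h₂ φ ?_ hj, fun C' _ γ hγ => ?_⟩
  · exact (wg_f_iff (ShortComplex.Splitting.ofHasBinaryBiproduct (M ⊞ H) P).shortExact).2
      (Loc.acyclic _ hP)
  · have h3 : WG (G0 C L) (biprod.fst : (M ⊞ H) ⊞ P ⟶ M ⊞ H) := by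
      refine WG.of_precomp (f := biprod.inl) ((wg_f_iff
        (ShortComplex.Splitting.ofHasBinaryBiproduct (M ⊞ H) P).shortExact).2 (Loc.acyclic _ hP)) ?_
      rw [biprod.inl_fst]
      exact WG.of_isIso _
    have h4 : WG (G0 C L) (biprod.snd : M ⊞ H ⟶ H) :=
      (wg_g_iff (ShortComplex.Splitting.ofHasBinaryBiproduct M H).shortExact).2
        (Loc.acyclic _ (NV_acyclic_cone X))
    rw [← wg_G0_iff, Functor.map_comp]
    refine WG.comp ?_ (WG.map (rs L γ) (fun _ h => h.elim) (h3.comp h4))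
    exact (wg_f_iff (shortExact_mapC (rs L γ) h₂)).2
      (Loc.acyclic _ (NV_acyclic_rs γ fun U => hQ _ (hγ U)))

variable {u : C ⥤ Scheme.{0}}

/-- Complexes generated by the local acyclic complexes and the representables in `S`. -/
def NV_Gen (u : C ⥤ Scheme.{0}) (S : C → Prop) : Ch C L → Prop :=
  fun K => NGen u K ∨ RepGen L S K

/-- The class generated by `S` is stable under the Tate twist if `S` is stable under affine lines
and open subschemes. -/
lemma NV_loc_tT (hu : IsSite u) {S : C → Prop} (hc : ∀ U, S U → ∃ c : Cyl u U, S c.I)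
    (ho : ∀ {V U : C} (f : V ⟶ U), IsOpenImmersion (u.map f) → S U → S V) {K : Ch C L}
    (hK : Loc (NV_Gen u S) K) : Loc (NV_Gen u S) ((tT L u).obj K) := by
  have := isExact_tensor_tate (L := L) (u := u)
  refine Loc.map (tensorRight (u.op ⋙ tate L)) ?_ hK
  rintro K (h | ⟨U, hU, rfl⟩)
  · exact (tens_loc u _ (fun _ => flat_tate _) (Loc.gen K h)).mono fun _ h => Or.inl h
  · obtain ⟨c, hI⟩ := hc U hU
    obtain ⟨G, j, hj, _, h1, h2⟩ := hu.exists_gm c
    refine Loc.of_iso ((HomologicalComplex.singleMapHomologicalComplex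
      (tensorRight (u.op ⋙ tate L)) _ 0).app _).symm ?_
    exact Loc.right _ (shortExact_sgl (c.tate_shortExact j h1 h2) 0)
      (Loc.gen _ (Or.inr ⟨G, ho j hj hI, rfl⟩)) (Loc.gen _ (Or.inr ⟨c.I, hI, rfl⟩))

/-- Cellular approximation of spectra. -/
theorem exists_spt_approx (hu : IsSite u) {S : C → Prop} (hc : ∀ U, S U → ∃ c : Cyl u U, S c.I)
    (ho : ∀ {V U : C} (f : V ⟶ U), IsOpenImmersion (u.map f) → S U → S V) (H : Spt L u) :
    ∃ (E : Spt L u) (p : ∀ n, E.X n ⟶ H.X n), (∀ n, Loc (NV_Gen u S) (E.X n)) ∧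
      (∀ n, E.σ n ≫ p (n + 1) = (tT L u).map (p n) ≫ H.σ n) ∧
      ∀ (C' : Type 1) [Category.{0} C'] (γ : C' ⥤ C), (∀ U, S (γ.obj U)) →
        ∀ n, QuasiIso ((mapC (rs L γ)).map (p n)) := by
  choose Z i p hip hi hp using fun {X H : Ch C L} (f : X ⟶ H) => exists_rep_factor S f
  let st : ∀ n, (Σ X : Ch C L, X ⟶ H.X n) := fun n => Nat.rec
    (motive := fun n => Σ X : Ch C L, X ⟶ H.X n) ⟨_, p (0 : 0 ⟶ H.X 0)⟩
    (fun n x => ⟨_, p ((tT L u).map x.2 ≫ H.σ n)⟩) n
  have hW : ∀ {X H : Ch C L} (f : X ⟶ H), WG (NV_Gen u S) (i f) := fun f =>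
    Loc.mono (fun _ h => Or.inr h) (hi f)
  refine ⟨⟨fun n => (st n).1, fun n => i ((tT L u).map (st n).2 ≫ H.σ n)⟩, fun n => (st n).2,
    fun n => ?_, fun n => hip _, fun C' _ γ hγ n => ?_⟩
  · induction n with
    | zero => exact (hW _).loc_iff.1 Loc.zero
    | succ n ih => exact (hW _).loc_iff.1 (NV_loc_tT hu hc ho ih)
  · cases n with
    | zero => exact hp _ C' γ hγ
    | succ n => exact hp _ C' γ hγ

/-- The comparison map for restriction of a presheaf on schemes placed in degree `0`. -/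
def NV_e {C' : Type 1} [Category.{0} C'] (γ : C' ⥤ C) (u : C ⥤ Scheme.{0}) (F : PSh Scheme.{0} L) :
    (resCh γ).obj ((sgl 0).obj (u.op ⋙ F)) ≅ (sgl 0).obj ((γ ⋙ u).op ⋙ F) :=
  (HomologicalComplex.singleMapHomologicalComplex (rs L γ) _ 0).app (u.op ⋙ F)

/-- The bonding map attached to a pairing of presheaves on schemes. -/
def NV_b (u : C ⥤ Scheme.{0}) {T F F' : PSh Scheme.{0} L} (b : F ⊗ T ⟶ F') :
    (tens (u.op ⋙ T)).obj ((sgl 0).obj (u.op ⋙ F)) ⟶ (sgl 0).obj (u.op ⋙ F') :=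
  (HomologicalComplex.singleMapHomologicalComplex (tensorRight (u.op ⋙ T)) _ 0).hom.app
    (u.op ⋙ F) ≫ (sgl 0).map (Functor.whiskerLeft u.op b)

lemma NV_b_e {C' : Type 1} [Category.{0} C'] (γ : C' ⥤ C) {T F F' : PSh Scheme.{0} L}
    (b : F ⊗ T ⟶ F') : (resCh γ).map (NV_b u b) ≫ (NV_e γ u F').hom =
      (tens ((γ ⋙ u).op ⋙ T)).map (NV_e γ u F).hom ≫ NV_b (γ ⋙ u) b := by
  refine HomologicalComplex.to_single_hom_ext ?_
  simp only [NV_b, NV_e, resCh, tens, Iso.app_hom, HomologicalComplex.comp_f,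
    Functor.mapHomologicalComplex_map_f, Functor.map_comp,
    HomologicalComplex.singleMapHomologicalComplex_hom_app_self,
    HomologicalComplex.single_map_f_self, Category.assoc, Iso.inv_hom_id_assoc,
    Iso.map_inv_hom_id_assoc]
  exact congrArg (_ ≫ ·) (Iso.map_inv_hom_id_assoc
    (HomologicalComplex.singleObjXSelf (ComplexShape.up ℤ) 0 ((γ ⋙ u).op ⋙ F))
    (tensorRight ((γ ⋙ u).op ⋙ T)) _).symm

/-- Voevodsky's spectrum is compatible with restriction. -/
lemma exists_voev_res {C' : Type 1} [Category.{0} C'] (γ : C' ⥤ C) (m : ℕ) :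
    ∃ e : ∀ n, ((voev L u m).res γ).X n ⟶ (voev L (γ ⋙ u) m).X n, (∀ n, IsIso (e n)) ∧
      ∀ n, ((voev L u m).res γ).σ n ≫ e (n + 1) =
        (tT L (γ ⋙ u)).map (e n) ≫ (voev L (γ ⋙ u) m).σ n :=
  ⟨fun n => (NV_e γ u (HH L m (Fin n))).hom, fun n => (NV_e γ u (HH L m (Fin n))).isIso_hom,
    fun _ => NV_b_e γ (bond L m finSuccEquivLast)⟩

end general

/-- There is a spectrum on the big site which is generated by smooth schemes and whose restriction
to the smooth site is levelwise quasi-isomorphic to Voevodsky's spectrum. -/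
theorem exists_motCoh (A : Type) [CommRing A] [IsNoetherianRing A] [IsLocalRing A] (m : ℕ) :
    ∃ E : Spt (ULift.{1} (ZMod m)) (big A), (∀ n, SmGenerated A _ (E.X n)) ∧
      LevelW (E.res (smBig A)) (voev _ (smBig A ⋙ big A) m) ∧ IsMotCoh A m E := by
  obtain ⟨E, p, h1, h2, h3⟩ := exists_spt_approx (isSite_big A) (S := fun U => Smooth U.obj.hom)
    (fun U hU => by
      obtain ⟨c, hc⟩ := exists_cyl_big A U
      exact ⟨c, Sites_smooth_of A c.p hc hU⟩)
    (fun f hf hU => Sites_smooth_of A f (Sites_smooth_of_etale A f inferInstance) hU)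
    (voev (ULift.{1} (ZMod m)) (big A) m)
  have key : ∀ (C' : Type 1) [Category.{0} C'] (γ : C' ⥤ Big A), (∀ U, Smooth (γ.obj U).obj.hom) →
      LevelW (E.res γ) (voev _ (γ ⋙ big A) m) := by
    intro C' _ γ hγ
    obtain ⟨e, he, he'⟩ := exists_voev_res (L := ULift.{1} (ZMod m)) (u := big A) γ m
    refine ⟨fun n => (resCh γ).map (p n) ≫ e n, fun n => ?_, fun n => ?_⟩
    · have := he n
      have := h3 C' γ hγ n
      exact WG.comp (WG.of_quasiIso ((mapC (rs _ γ)).map (p n))) (WG.of_isIso (e n))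
    · have h4 : (E.res γ).σ n ≫ (resCh γ).map (p (n + 1)) =
          (tT _ (γ ⋙ big A)).map ((resCh γ).map (p n)) ≫ ((voev _ (big A) m).res γ).σ n :=
        ((resCh γ).map_comp _ _).symm.trans
          ((congrArg (resCh γ).map (h2 n)).trans ((resCh γ).map_comp _ _))
      rw [Functor.map_comp, Category.assoc, ← he', ← Category.assoc, h4, Category.assoc]
  exact ⟨E, h1, key _ _ fun U => U.property, h1,
    Relation.EqvGen.rel _ _ (key _ _ fun U => U.property.1)⟩

end Pool.Agent.KEW
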