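import Pool.Agent.P.MP_6277db_ag.KEW.L1.Cyl

/-!
The presentation of `rep U ⊗ T` by the affine line and the multiplicative group over `U`.
-/

set_option backward.isDefEq.respectTransparency false

noncomputable section

open CategoryTheory Limits AlgebraicGeometry Opposite MonoidalCategory

namespace Pool.Agent.KEW

variable {C : Type 1} [Category.{0} C] {L : Type 1} [CommRing L] {u : C ⥤ Scheme.{0}}

variable (u L) in
/-- The class of a function in the Tate object. -/
def tateEl {V : C} (a : Γ(u.obj V, ⊤)) : (u.op ⋙ tate L).obj (op V) :=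
  (Submodule.Quotient.mk (Finsupp.single a 1) :
    (Γ(u.obj V, ⊤) →₀ L) ⧸ Finsupp.supported L L {a : Γ(u.obj V, ⊤) | IsUnit a})

lemma tateEl_unit {V : C} {a : Γ(u.obj V, ⊤)} (ha : IsUnit a) : tateEl L u a = 0 :=
  (Submodule.Quotient.mk_eq_zero _).2 (Finsupp.single_mem_supported L _ ha)

lemma map_tateEl {V W : C} (ψ : W ⟶ V) (a : Γ(u.obj V, ⊤)) :
    (u.op ⋙ tate L).map ψ.op (tateEl L u a) = tateEl L u ((u.map ψ).appTop a) :=
  congrArg Submodule.Quotient.mk (Finsupp.mapDomain_single (f := (u.map ψ).appTop))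

lemma rep_tensor_tate_ext {U V : C} {M : Type 1} [AddCommGroup M] [Module L M]
    {f g : ((rep C L).obj U ⊗ (u.op ⋙ tate L)).obj (op V) →ₗ[L] M}
    (h : ∀ (x : V ⟶ U) (a : Γ(u.obj V, ⊤)),
      f (repEl L x ⊗ₜ[L] tateEl L u a) = g (repEl L x ⊗ₜ[L] tateEl L u a)) : f = g := by
  refine TensorProduct.ext (Finsupp.lhom_ext' fun x => LinearMap.ext_ring ?_)
  refine Submodule.linearMap_qext _ (Finsupp.lhom_ext' fun a => LinearMap.ext_ring ?_)
  exact h x.down a

lemma NV_rep_lin_ext {U V : C} {M : Type 1} [AddCommGroup M] [Module L M]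
    {f g : ((rep C L).obj U).obj (op V) →ₗ[L] M}
    (h : ∀ x : V ⟶ U, f (repEl L x) = g (repEl L x)) : f = g :=
  Finsupp.lhom_ext' fun x => LinearMap.ext_ring (h x.down)

lemma mono_rep_map {U U' : C} (ψ : U ⟶ U') [Mono ψ] : Mono ((rep C L).map ψ) := by
  have : ∀ V, Mono (((rep C L).map ψ).app V) := fun V =>
    (ModuleCat.mono_iff_injective _).2 (Finsupp.mapDomain_injective fun x y h =>
      ULift.ext _ _ ((cancel_mono ψ).1 (congrArg ULift.down h)))
  exact NatTrans.mono_of_mono_app _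

namespace Cyl

variable {U : C} (c : Cyl u U)

variable (L) in
/-- The projection `rep (A^1_U) ⟶ rep U ⊗ T`. -/
def πT : (rep C L).obj c.I ⟶ (rep C L).obj U ⊗ (u.op ⋙ tate L) :=
  (repEquiv c.I _).symm (repEl L c.p ⊗ₜ[L] tateEl L u c.t)

lemma πT_el {V : C} (φ : V ⟶ c.I) :
    (c.πT L).app (op V) (repEl L φ) =
      repEl L (φ ≫ c.p) ⊗ₜ[L] tateEl L u ((u.map φ).appTop c.t) := by
  have e : repSec (c.πT L) = repEl L c.p ⊗ₜ[L] tateEl L u c.t :=
    (repEquiv c.I _).apply_symm_apply _
  rw [app_repEl, e]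
  change ((rep C L).obj U).map φ.op (repEl L c.p) ⊗ₜ[L]
    (u.op ⋙ tate L).map φ.op (tateEl L u c.t) = _
  rw [map_repEl, map_tateEl]

variable {G : C} (j : G ⟶ c.I)

lemma comp_πT (hj : IsUnit ((u.map j).appTop c.t)) : (rep C L).map j ≫ c.πT L = 0 :=
  (repSec_bijective G _).1 (by
    rw [repSec_comp, repSec, rep_map_repEl, πT_el, Category.id_comp, tateEl_unit hj,
      TensorProduct.tmul_zero, repSec_zero])

/-- If `j : G ⟶ A^1_U` represents the points with invertible coordinate, then `rep U ⊗ T` is the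
cokernel of `rep j`. -/
theorem tate_shortExact [Mono j] (hj : IsUnit ((u.map j).appTop c.t))
    (hj' : ∀ (V : C) (φ : V ⟶ c.I), IsUnit ((u.map φ).appTop c.t) → ∃ ψ, ψ ≫ j = φ) :
    (ShortComplex.mk _ _ (c.comp_πT (L := L) j hj)).ShortExact := by
  have := mono_rep_map (L := L) j
  have hepi : ∀ V, Epi ((c.πT L).app V) := fun V => by
    refine (ModuleCat.epi_iff_surjective _).2 (LinearMap.range_eq_top.1 ?_)
    rw [← Submodule.ker_mkQ (LinearMap.range _), LinearMap.ker_eq_top]
    refine rep_tensor_tate_ext (V := V.unop) fun x a => ?_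
    refine (Submodule.Quotient.mk_eq_zero _).2 ⟨repEl L (c.pt x a), ?_⟩
    exact (c.πT_el _).trans (by rw [pt_p, pt_t])
  have : Epi (c.πT L) := NatTrans.epi_of_epi_app _
  refine { exact := sat_exact_of_eval _ fun V => (ShortComplex.moduleCat_exact_iff _).2 ?_ }
  let N := LinearMap.range (((rep C L).map j).app V).hom
  let s : ((rep C L).obj U).obj V →ₗ[L] (u.op ⋙ tate L).obj V →ₗ[L]
      (((rep C L).obj c.I).obj V ⧸ N) :=
    Finsupp.linearCombination L fun x : ULift.{1} (V.unop ⟶ U) => Submodule.liftQ _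
      (Finsupp.linearCombination L fun a => N.mkQ (repEl L (c.pt x.down a))) (by
        rw [Finsupp.supported_eq_span_single, Submodule.span_le]
        rintro _ ⟨a, ha, rfl⟩
        obtain ⟨ψ, hψ⟩ := hj' V.unop (c.pt x.down a) (by rwa [pt_t])
        have h : repEl L (c.pt x.down a) ∈ N :=
          ⟨repEl L ψ, (rep_map_repEl ψ j).trans (by rw [hψ])⟩
        simpa using h)
  have hs : ∀ x a, s (repEl L x) (tateEl L u a) = N.mkQ (repEl L (c.pt x a)) := fun x a => by
    simp only [s, repEl]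
    erw [Finsupp.linearCombination_single]
    rw [one_smul, tateEl]
    erw [Submodule.liftQ_apply, Finsupp.linearCombination_single]
    rw [one_smul]
  have key : TensorProduct.lift s ∘ₗ ((c.πT L).app V).hom = N.mkQ :=
    NV_rep_lin_ext (V := V.unop) fun φ => by
      refine (congrArg (TensorProduct.lift s) (c.πT_el φ)).trans ((hs _ _).trans ?_)
      rw [← comp_pt, pt_p_t, Category.comp_id]
  intro z hz
  have h := LinearMap.congr_fun key z
  rw [LinearMap.comp_apply] at h
  exact (Submodule.Quotient.mk_eq_zero _).1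
    (h.symm.trans ((congrArg (TensorProduct.lift s) hz).trans (map_zero _)))

end Cyl

lemma isUnit_appTop_iff {X Y : Scheme.{0}} (f : X ⟶ Y) (t : Γ(Y, ⊤)) :
    IsUnit (f.appTop t) ↔ Set.range f ⊆ Y.basicOpen t := by
  constructor
  · rintro h _ ⟨x, rfl⟩
    have h1 : x ∈ f ⁻¹ᵁ Y.basicOpen t := by
      rw [Scheme.preimage_basicOpen_top, Scheme.basicOpen_of_isUnit _ h]
      trivial
    exact h1
  · intro h
    refine X.toRingedSpace.isUnit_of_isUnit_germ ⊤ _ fun x hx => ?_
    have h1 : x ∈ X.basicOpen (f.appTop t) := by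
      rw [← Scheme.preimage_basicOpen_top]
      exact h ⟨x, rfl⟩
    exact (X.mem_basicOpen _ x hx).1 h1

/-- The multiplicative group over `U` as an open subscheme of the affine line. -/
theorem IsSite.exists_gm (hu : IsSite u) {U : C} (c : Cyl u U) :
    ∃ (G : C) (j : G ⟶ c.I), IsOpenImmersion (u.map j) ∧ Mono j ∧
      IsUnit ((u.map j).appTop c.t) ∧
      ∀ (V : C) (φ : V ⟶ c.I), IsUnit ((u.map φ).appTop c.t) → ∃ ψ, ψ ≫ j = φ := by
  obtain ⟨G, j, hj, hr⟩ := hu.exists_open c.I ((u.obj c.I).basicOpen c.t)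
  exact ⟨G, j, hj, hu.mono_of_open j, (isUnit_appTop_iff _ _).2 hr.le, fun V φ h =>
    hu.lift_open j φ (((isUnit_appTop_iff _ _).1 h).trans hr.ge)⟩

lemma isExact_tensor_tate : IsExact (tensorRight (u.op ⋙ tate L) : PSh C L ⥤ _) :=
  isExact_tensorRight _ fun _ => flat_tate _

end Pool.Agent.KEW
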